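import Mathlib

namespace Pool.Agent.H.MP_f15a68_nt

open Polynomial NumberField IntermediateField

section padic
variable {p : ℕ} [Fact p.Prime]

lemma norm_lt_iff (z : ℤ_[p]) : ‖z‖ < 1 ↔ PadicInt.toZMod z = 0 := by
  rw [← PadicInt.mem_nonunits, ← IsLocalRing.mem_maximalIdeal, ← PadicInt.ker_toZMod,
    RingHom.mem_ker]

lemma hensel_range {E : Type*} [Field E] (i : ℤ_[p] →+* E) (hi : Function.Injective i)
    (F : ℤ_[p][X]) (hF : F ≠ 0) (s : Finset (ZMod p)) (hs : F.natDegree ≤ s.card)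
    (h : ∀ c ∈ s, (F.map PadicInt.toZMod).eval c = 0 ∧
      (F.map PadicInt.toZMod).derivative.eval c ≠ 0)
    (x : E) (hx : (F.map i).eval x = 0) : x ∈ i.range := by
  classical
  have h1 : ∀ c ∈ s, ∃ z : ℤ_[p], F.eval z = 0 ∧ PadicInt.toZMod z = c := by
    intro c hc
    have ha : PadicInt.toZMod ((c.val : ℕ) : ℤ_[p]) = c := by simp
    have e1 : ‖F.aeval ((c.val : ℕ) : ℤ_[p])‖ < 1 := by
      rw [norm_lt_iff, coe_aeval_eq_eval, ← eval₂_at_apply, ha, ← eval_map]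
      exact (h c hc).1
    have e2 : ‖F.derivative.aeval ((c.val : ℕ) : ℤ_[p])‖ = 1 := by
      refine le_antisymm (PadicInt.norm_le_one _) (not_lt.1 ?_)
      rw [norm_lt_iff, coe_aeval_eq_eval, ← eval₂_at_apply, ha, ← eval_map, ← derivative_map]
      exact (h c hc).2
    obtain ⟨z, hz1, hz2, -⟩ := hensels_lemma (F := F) (a := ((c.val : ℕ) : ℤ_[p]))
      (by rw [e2]; simpa using e1)
    rw [e2, norm_lt_iff, map_sub, ha, sub_eq_zero] at hz2
    exact ⟨z, by simpa using hz1, hz2⟩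
  choose! z hz using h1
  have h2 : s.image z ⊆ F.roots.toFinset := by
    intro y hy
    obtain ⟨c, hc, rfl⟩ := Finset.mem_image.1 hy
    exact Multiset.mem_toFinset.2 ((mem_roots hF).2 (hz c hc).1)
  have h3 : (s.image z).card = s.card := Finset.card_image_of_injOn fun c hc d hd hcd => by
    rw [← (hz c hc).2, hcd, (hz d hd).2]
  have h4 : F.Splits := by
    rw [splits_iff_card_roots]
    refine le_antisymm (card_roots' F) ?_
    exact hs.trans (h3.ge.trans ((Finset.card_le_card h2).trans (Multiset.toFinset_card_le _)))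
  have h5 : x ∈ (F.map i).roots := (mem_roots ((Polynomial.map_ne_zero_iff hi).2 hF)).2 hx
  rw [h4.roots_map_of_injective hi, Multiset.mem_map] at h5
  obtain ⟨y, -, hy⟩ := h5
  exact ⟨y, hy⟩

end padic

instance : Fact (Nat.Prime 5) := ⟨by norm_num⟩

lemma padic_step {E : Type*} [Field E] (i : ℤ_[5] →+* E) (hi : Function.Injective i)
    (y w x : E) (hy : y ∈ i.range) (hw : w ^ 4 - 5 * y * w ^ 3 - 1 = 0) (hx : x ^ 5 - x = 5 * w) :
    x ∈ i.range := by
  have h5 : ∀ a : ℤ_[5], ∃ b : ℤ_[5], PadicInt.toZMod b = 0 ∧ i b = 5 * i a := fun a =>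
    ⟨5 * a, by rw [map_mul, map_ofNat]; exact zero_mul _, by rw [map_mul, map_ofNat]⟩
  obtain ⟨a, rfl⟩ := hy
  have hw' : w ∈ i.range := by
    obtain ⟨c, hc1, hc2⟩ := h5 a
    refine hensel_range i hi (X ^ 4 - C c * X ^ 3 - 1) ?_ {1, 2, 3, 4} ?_ ?_ w ?_
    · intro h
      have := congrArg (eval 0) h
      simp at this
    · have : ({1, 2, 3, 4} : Finset (ZMod 5)).card = 4 := by decide
      rw [this]
      compute_degree
    · simp only [Polynomial.map_sub, Polynomial.map_mul, Polynomial.map_pow, map_X, map_C,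
        hc1, zero_mul, Polynomial.map_one, map_zero, sub_zero, derivative_sub, derivative_one,
        derivative_X_pow, eval_sub, eval_pow, eval_X, eval_one, eval_mul, eval_C]
      decide
    · simp only [Polynomial.map_sub, Polynomial.map_mul, Polynomial.map_pow, map_X, map_C,
        Polynomial.map_one, eval_sub, eval_pow, eval_X, eval_one, eval_mul, eval_C, hc2]
      exact hw
  obtain ⟨b, rfl⟩ := hw'
  obtain ⟨c, hc1, hc2⟩ := h5 b
  refine hensel_range i hi (X ^ 5 - X - C c) ?_ Finset.univ ?_ ?_ x ?_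
  · intro h
    have := congrArg (fun f => coeff f 5) h
    simp [coeff_X] at this
  · have : (Finset.univ : Finset (ZMod 5)).card = 5 := by decide
    rw [this]
    compute_degree
  · simp only [Polynomial.map_sub, Polynomial.map_pow, map_X, map_C,
      hc1, map_zero, sub_zero, derivative_sub, derivative_X,
      derivative_X_pow, eval_sub, eval_pow, eval_X, eval_one, eval_mul, eval_C]
    decide
  · simp only [Polynomial.map_sub, Polynomial.map_pow, map_X, map_C,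
      eval_sub, eval_pow, eval_X, eval_C, hc2]
    linear_combination hx

lemma complex_step (y w x : ℂ) (hy : ‖y‖ ≤ 3) (hw : w ^ 4 - 5 * y * w ^ 3 - 1 = 0)
    (hx : x ^ 5 - x = 5 * w) : 1 ≤ ‖x‖ ∧ ‖x‖ ≤ 3 := by
  have hw0 := norm_nonneg w
  have hx0 := norm_nonneg x
  have h1 : ‖w‖ ^ 3 * ‖w - 5 * y‖ = 1 := by
    rw [← norm_pow, ← norm_mul, ← norm_one (α := ℂ)]
    congr 1
    linear_combination hw
  have h5y : ‖5 * y‖ ≤ 15 := by
    rw [norm_mul]
    simp only [Complex.norm_ofNat]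
    linarith
  have h2 : ‖x ^ 5 - x‖ = 5 * ‖w‖ := by
    rw [hx, norm_mul]
    simp
  constructor
  · by_contra h
    push Not at h
    have h3 : ‖x ^ 5 - x‖ ≤ 2 := by
      refine (norm_sub_le _ _).trans ?_
      rw [norm_pow]
      have := pow_le_one₀ (n := 5) hx0 h.le
      linarith
    have h4 : ‖w‖ ≤ 2 / 5 := by linarith
    have h6 : ‖w - 5 * y‖ ≤ 2 / 5 + 15 := (norm_sub_le _ _).trans (by linarith)
    have h7 : ‖w‖ ^ 3 ≤ (2 / 5) ^ 3 := pow_le_pow_left₀ hw0 h4 3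
    have h8 := mul_le_mul h7 h6 (norm_nonneg _) (by positivity)
    rw [h1] at h8
    norm_num at h8
  · by_contra h
    push Not at h
    have h4 : ‖w‖ ≤ 16 := by
      by_contra h'
      push Not at h'
      have h6 : 1 ≤ ‖w - 5 * y‖ := by
        have := norm_sub_norm_le w (5 * y)
        linarith
      have h7 : (16 : ℝ) ^ 3 ≤ ‖w‖ ^ 3 := pow_le_pow_left₀ (by norm_num) h'.le 3
      have h8 := mul_le_mul h7 h6 (by norm_num) (by positivity)
      rw [h1] at h8
      norm_num at h8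
    have h3 := norm_sub_norm_le (x ^ 5) x
    rw [norm_pow] at h3
    have h7 : (3 : ℝ) ^ 4 ≤ ‖x‖ ^ 4 := pow_le_pow_left₀ (by norm_num) h.le 4
    have h8 : ‖x‖ ^ 5 = ‖x‖ ^ 4 * ‖x‖ := by ring
    nlinarith

lemma prod_emb {L : Type*} [Field L] [NumberField L] (x : L) (g : ℂ → ℝ) :
    ∏ σ : L →ₐ[ℚ] ℂ, g (σ x) =
      (((minpoly ℚ x).aroots ℂ).map g).prod ^ Module.finrank ℚ⟮x⟯ L := by
  classical
  have hx : IsIntegral ℚ x := Algebra.IsIntegral.isIntegral x
  have : FiniteDimensional ℚ ℚ⟮x⟯ := adjoin.finiteDimensional hx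
  have h1 : ∏ σ : ℚ⟮x⟯ →ₐ[ℚ] ℂ, g (σ (AdjoinSimple.gen ℚ x)) =
      (((minpoly ℚ x).aroots ℂ).map g).prod := by
    refine Eq.trans (Fintype.prod_equiv (algHomAdjoinIntegralEquiv ℚ hx)
      (fun σ : ℚ⟮x⟯ →ₐ[ℚ] ℂ => g (σ (AdjoinSimple.gen ℚ x))) (fun y => g y) ?_) ?_
    · intro σ
      have := algHomAdjoinIntegralEquiv_symm_apply_gen ℚ hx (algHomAdjoinIntegralEquiv ℚ hx σ)
      rw [Equiv.symm_apply_apply] at this
      exact congrArg g this
    · rw [Finset.prod_mem_multiset _ _ g (fun _ => rfl), Finset.prod_eq_multiset_prod,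
        Multiset.toFinset_val, Multiset.dedup_eq_self.mpr]
      exact nodup_roots (Separable.map (Algebra.IsSeparable.isSeparable ℚ x))
  rw [← h1, Fintype.prod_equiv (algHomEquivSigma (B := ℚ⟮x⟯)) (fun σ : L →ₐ[ℚ] ℂ => g (σ x))
    (fun σ => g (σ.1 (AdjoinSimple.gen ℚ x))) (fun σ => rfl),
    ← Finset.univ_sigma_univ, Finset.prod_sigma, ← Finset.prod_pow]
  refine Finset.prod_congr rfl fun σ _ => ?_
  let : Algebra ℚ⟮x⟯ ℂ := σ.toRingHom.toAlgebra
  simp_rw [Finset.prod_const]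
  congr
  exact AlgHom.card ℚ⟮x⟯ L ℂ

lemma log_prod_emb {L : Type*} [Field L] [NumberField L] (x : L) :
    Real.log (∏ σ : L →ₐ[ℚ] ℂ, max 1 ‖σ x‖) = (Module.finrank ℚ L : ℝ) *
      (Real.log (((minpoly ℚ x).map (algebraMap ℚ ℂ)).mahlerMeasure) /
        ((minpoly ℚ x).natDegree : ℝ)) := by
  have hx : IsIntegral ℚ x := Algebra.IsIntegral.isIntegral x
  have hm : ((minpoly ℚ x).map (algebraMap ℚ ℂ)).Monic := (minpoly.monic hx).map _
  rw [prod_emb x (fun z => max 1 ‖z‖), mahlerMeasure_eq_leadingCoeff_mul_prod_roots,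
    hm.leadingCoeff, norm_one, one_mul, Real.log_pow]
  have h1 : (minpoly ℚ x).natDegree * Module.finrank ℚ⟮x⟯ L = Module.finrank ℚ L := by
    rw [← adjoin.finrank hx]
    exact Module.finrank_mul_finrank ℚ ℚ⟮x⟯ L
  have h2 : ((minpoly ℚ x).natDegree : ℝ) ≠ 0 := by
    exact_mod_cast (minpoly.natDegree_pos hx).ne'
  rw [← h1]
  push_cast
  field_simp

lemma prod_unit {L : Type*} [Field L] [NumberField L] (w v : L) (hw : IsIntegral ℤ w)
    (hv : IsIntegral ℤ v) (h : w * v = 1) : ∏ σ : L →ₐ[ℚ] ℂ, ‖σ w‖ = 1 := by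
  obtain ⟨a, ha⟩ := IsIntegrallyClosed.isIntegral_iff.1 (Algebra.isIntegral_norm ℚ hw)
  obtain ⟨b, hb⟩ := IsIntegrallyClosed.isIntegral_iff.1 (Algebra.isIntegral_norm ℚ hv)
  have h1 : a * b = 1 := by
    apply (algebraMap ℤ ℚ).injective_int
    rw [map_mul, ha, hb, ← map_mul, h, map_one, map_one]
  rw [← norm_prod, ← Algebra.norm_eq_prod_embeddings, ← ha]
  rcases Int.eq_one_or_neg_one_of_mul_eq_one h1 with rfl | rfl <;> simp

lemma abs_eq_mahler {T : Type*} [Field T] [CharZero T] (x : T) (hx : IsIntegral ℤ x) :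
    absLogHeight₁ x = Real.log (((minpoly ℚ x).map (algebraMap ℚ ℂ)).mahlerMeasure) /
        ((minpoly ℚ x).natDegree : ℝ) := by
  classical
  have hq : IsIntegral ℚ x := hx.tower_top
  have : FiniteDimensional ℚ ℚ⟮x⟯ := adjoin.finiteDimensional hq
  have : NumberField ℚ⟮x⟯ := {}
  have hg : IsIntegral ℤ (AdjoinSimple.gen ℚ x) :=
    (isIntegral_algebraMap_iff (A := ℚ⟮x⟯) (B := T) (algebraMap ℚ⟮x⟯ T).injective).1 hx
  have h1 := log_prod_emb (AdjoinSimple.gen ℚ x)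
  have h2 : minpoly ℚ (AdjoinSimple.gen ℚ x) = minpoly ℚ x := minpoly_gen ℚ x
  rw [h2] at h1
  have h3 : Height.mulHeight₁ (AdjoinSimple.gen ℚ x) =
      ∏ σ : ℚ⟮x⟯ →ₐ[ℚ] ℂ, max 1 ‖σ (AdjoinSimple.gen ℚ x)‖ := by
    rw [NumberField.mulHeight₁_eq, finprod_eq_one_of_forall_eq_one, mul_one]
    · rw [← Fintype.prod_equiv (RingHom.equivRatAlgHom ℚ⟮x⟯ ℂ)
        (fun f => max 1 ‖f (AdjoinSimple.gen ℚ x)‖)
        (fun φ => max 1 ‖φ (AdjoinSimple.gen ℚ x)‖) fun _ => by simp [RingHom.equivRatAlgHom_apply]]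
      rw [← Finset.prod_fiberwise Finset.univ InfinitePlace.mk
        (fun φ => max 1 ‖φ (AdjoinSimple.gen ℚ x)‖)]
      have (w : InfinitePlace ℚ⟮x⟯) (φ) (hφ : φ ∈ ({φ | InfinitePlace.mk φ = w} : Finset _)) :
          max 1 ‖φ (AdjoinSimple.gen ℚ x)‖ = max (w (AdjoinSimple.gen ℚ x)) 1 := by
        rw [← (Finset.mem_filter.mp hφ).2, InfinitePlace.apply, max_comm]
      simp_rw [Finset.prod_congr rfl (this _), Finset.prod_const, InfinitePlace.card_filter_mk_eq]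
    · intro v
      refine max_eq_right ?_
      rw [← FinitePlace.norm_embedding_eq]
      exact FinitePlace.norm_le_one ℚ⟮x⟯ v.maximalIdeal (⟨_, hg⟩ : 𝓞 ℚ⟮x⟯)
  have hd : (Module.finrank ℚ ℚ⟮x⟯ : ℝ) ≠ 0 := by exact_mod_cast Module.finrank_pos.ne'
  unfold absLogHeight₁ absMulHeight₁
  rw [dif_pos hq, Real.log_rpow (Height.mulHeight₁_pos _), h3, h1]
  field_simp

end Pool.Agent.H.MP_f15a68_nt
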