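import Pool.Agent.H.MP_f15a68_nt.A

namespace Pool.Agent.H.MP_f15a68_nt

open Polynomial NumberField IntermediateField

noncomputable def iE : ℤ_[5] →+* AlgebraicClosure ℚ_[5] :=
  (algebraMap ℚ_[5] (AlgebraicClosure ℚ_[5])).comp PadicInt.Coe.ringHom

lemma iE_inj : Function.Injective iE :=
  (algebraMap ℚ_[5] (AlgebraicClosure ℚ_[5])).injective.comp Subtype.val_injective

noncomputable def ht {T : Type*} [Field T] [CharZero T] (x : T) : ℝ :=
  Real.log (((minpoly ℚ x).map (algebraMap ℚ ℂ)).mahlerMeasure) / ((minpoly ℚ x).natDegree : ℝ)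

lemma avg {L : Type*} [Field L] [NumberField L] (w v : L) (hw : IsIntegral ℤ w)
    (hv : IsIntegral ℤ v) (h : w * v = 1) (s : Multiset L) (hs : s.card = 5)
    (hp : s.prod = 5 * w) (h1 : ∀ r ∈ s, ∀ σ : L →ₐ[ℚ] ℂ, 1 ≤ ‖σ r‖) :
    ∃ r ∈ s, ht r ≤ Real.log 5 / 5 := by
  by_contra hc
  push Not at hc
  have hD : (0 : ℝ) < Module.finrank ℚ L := by exact_mod_cast Module.finrank_pos
  have h2 : ∀ σ : L →ₐ[ℚ] ℂ, (s.map fun r => max 1 ‖σ r‖).prod = 5 * ‖σ w‖ := by
    intro σ
    rw [Multiset.map_congr rfl (fun r hr => max_eq_right (h1 r hr σ))]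
    have h3 := map_multiset_prod ((normHom (α := ℂ)).toMonoidHom.comp σ.toRingHom.toMonoidHom) s
    rw [hp] at h3
    refine Eq.trans h3.symm ?_
    simp [map_ofNat]
  have h3 : (s.map fun r => ∏ σ : L →ₐ[ℚ] ℂ, max 1 ‖σ r‖).prod = 5 ^ Module.finrank ℚ L := by
    simp only [Finset.prod_eq_multiset_prod]
    rw [Multiset.prod_map_prod_map]
    simp only [h2]
    rw [← Finset.prod_eq_multiset_prod, Finset.prod_mul_distrib, prod_unit w v hw hv h, mul_one,
      Finset.prod_const, Finset.card_univ, AlgHom.card]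
  have h4 := congrArg Real.log h3
  rw [Real.log_multiset_prod, Multiset.map_map, Real.log_pow] at h4
  · have h5 := Multiset.sum_lt_sum_of_nonempty (s := s)
      (f := fun _ => (Module.finrank ℚ L : ℝ) * (Real.log 5 / 5))
      (g := fun r => Real.log (∏ σ : L →ₐ[ℚ] ℂ, max 1 ‖σ r‖)) (by rintro rfl; simp at hs)
      (fun r hr => by
        rw [log_prod_emb]
        exact mul_lt_mul_of_pos_left (hc r hr) hD)
    rw [Multiset.map_const', Multiset.sum_replicate, hs, nsmul_eq_mul] at h5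
    have h6 := h5.trans_eq h4
    push_cast at h6
    linarith
  · intro x hx
    obtain ⟨r, -, rfl⟩ := Multiset.mem_map.1 hx
    exact (Finset.prod_pos fun σ _ => lt_max_of_lt_left one_pos).ne'

lemma int_of_root {T : Type*} [Field T] (x : T) (f : (integralClosure ℤ T)[X]) (hf : f.Monic)
    (h : aeval x f = 0) : IsIntegral ℤ x :=
  isIntegral_trans (A := integralClosure ℤ T) x ⟨f, hf, h⟩

variable {Om : Type} [Field Om] [CharZero Om] [IsAlgClosure ℚ Om]

def Good (y : Om) : Prop := IsIntegral ℤ y ∧ (∀ φ : Om →+* ℂ, ‖φ y‖ ≤ 3) ∧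
  ∀ ψ : Om →+* AlgebraicClosure ℚ_[5], ψ y ∈ iE.range

def Rel (y x : Om) : Prop := ∃ w : Om, w ^ 4 - 5 * y * w ^ 3 - 1 = 0 ∧ x ^ 5 - x = 5 * w

lemma step (y : Om) (hy : Good y) : ∃ x, Good x ∧ Rel y x ∧ ht x ≤ Real.log 5 / 5 := by
  classical
  have : IsAlgClosed Om := IsAlgClosure.isAlgClosed ℚ
  obtain ⟨w, hw⟩ : ∃ w : Om, w ^ 4 - 5 * y * w ^ 3 - 1 = 0 := by
    obtain ⟨w, hw⟩ := IsAlgClosed.exists_root (X ^ 4 - C (5 * y) * X ^ 3 - 1 : Om[X])
      (by
        have : (X ^ 4 - C (5 * y) * X ^ 3 - 1 : Om[X]).degree = 4 := by compute_degree!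
        rw [this]; decide)
    exact ⟨w, by simpa using hw⟩
  have h5 : ∀ a : Om, IsIntegral ℤ a → IsIntegral ℤ (5 * a) := fun a ha => by
    have := ha.nsmul 5
    rwa [nsmul_eq_mul, Nat.cast_ofNat] at this
  have hwi : IsIntegral ℤ w := by
    refine int_of_root w (X ^ 4 - C ⟨5 * y, h5 y hy.1⟩ * X ^ 3 - 1) (by monicity!) ?_
    simp only [map_sub, map_mul, map_pow, aeval_X, aeval_C, map_one]
    exact hw
  have hgood : ∀ x : Om, x ^ 5 - x = 5 * w → Good x ∧ ∀ φ : Om →+* ℂ, 1 ≤ ‖φ x‖ := by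
    intro x hx
    have hc : ∀ φ : Om →+* ℂ, 1 ≤ ‖φ x‖ ∧ ‖φ x‖ ≤ 3 := fun φ =>
      complex_step (φ y) (φ w) (φ x) (hy.2.1 φ) (by simpa [map_ofNat] using congrArg φ hw)
        (by simpa [map_ofNat] using congrArg φ hx)
    refine ⟨⟨?_, fun φ => (hc φ).2, fun ψ => ?_⟩, fun φ => (hc φ).1⟩
    · refine int_of_root x (X ^ 5 - X - C ⟨5 * w, h5 w hwi⟩) (by monicity!) ?_
      simp only [map_sub, map_pow, aeval_X, aeval_C]
      exact sub_eq_zero.2 hx
    · exact padic_step iE iE_inj (ψ y) (ψ w) (ψ x) (hy.2.2 ψ)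
        (by simpa [map_ofNat] using congrArg ψ hw) (by simpa [map_ofNat] using congrArg ψ hx)
  let P : Om[X] := X ^ 5 - X - C (5 * w)
  let S : Finset Om := insert y (insert w P.roots.toFinset)
  let L : IntermediateField ℚ Om := adjoin ℚ (S : Set Om)
  have : FiniteDimensional ℚ L :=
    finiteDimensional_adjoin fun x _ => Algebra.IsIntegral.isIntegral x
  have : NumberField L := {}
  let y' : L := ⟨y, subset_adjoin ℚ _ (by simp [S])⟩
  let w' : L := ⟨w, subset_adjoin ℚ _ (by simp [S])⟩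
  have hint : ∀ a : L, IsIntegral ℤ (a : Om) → IsIntegral ℤ a := fun a ha =>
    (isIntegral_algebraMap_iff (A := L) (B := Om) (algebraMap L Om).injective).1 ha
  let P' : L[X] := X ^ 5 - X - C (5 * w')
  have hP' : P'.map (algebraMap L Om) = P := by
    simp only [P', P, Polynomial.map_sub, Polynomial.map_pow, map_X, map_C]
    rfl
  have hm : P'.Monic := by unfold P'; monicity!
  have hd : P'.natDegree = 5 := by unfold P'; compute_degree!
  have hs : P'.Splits := by
    refine Splits.of_splits_map (algebraMap L Om) (IsAlgClosed.splits _) fun a ha => ?_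
    rw [hP'] at ha
    exact ⟨⟨a, subset_adjoin ℚ _ (by
      simp only [S, Finset.coe_insert, Set.mem_insert_iff, Finset.mem_coe, Multiset.mem_toFinset]
      exact Or.inr (Or.inr ha))⟩, rfl⟩
  have hr : ∀ r ∈ P'.roots, (r : Om) ^ 5 - r = 5 * w := by
    intro r hr
    have h1 := (mem_roots hm.ne_zero).1 hr
    simp only [P', IsRoot.def, eval_sub, eval_pow, eval_X, eval_C] at h1
    have h2 := congrArg (algebraMap L Om) (sub_eq_zero.1 h1)
    rw [map_sub, map_pow, map_mul, map_ofNat] at h2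
    exact h2
  obtain ⟨r, hr1, hr2⟩ := avg w' (w' ^ 3 - 5 * y' * w' ^ 2) (hint _ hwi)
    (hint _ ((hwi.pow 3).sub ((h5 y hy.1).mul (hwi.pow 2))))
    (Subtype.ext (by
      change w * (w ^ 3 - 5 * y * w ^ 2) = 1
      linear_combination hw)) P'.roots (by rw [← hs.natDegree_eq_card_roots, hd])
    (by
      have h1 := hs.coeff_zero_eq_prod_roots_of_monic hm
      rw [hd, coeff_zero_eq_eval_zero] at h1
      simp only [P', eval_sub, eval_pow, eval_X, eval_C] at h1
      linear_combination h1)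
    (by
      intro r hr1 σ
      let _ : Algebra L ℂ := σ.toRingHom.toAlgebra
      have : Algebra.IsAlgebraic L Om := Algebra.IsAlgebraic.tower_top (K := ℚ) _
      let φ : Om →ₐ[L] ℂ := IsAlgClosed.lift
      have h1 := (hgood r (hr r hr1)).2 φ.toRingHom
      have h2 : φ r = σ r := φ.commutes r
      rw [← h2]
      exact h1)
  refine ⟨r, (hgood r (hr r hr1)).1, ⟨w, hw, hr r hr1⟩, ?_⟩
  have h3 : minpoly ℚ (r : Om) = minpoly ℚ r := (IntermediateField.minpoly_eq r).symm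
  unfold ht at hr2 ⊢
  rw [h3]
  exact hr2

omit [IsAlgClosure ℚ Om] in
lemma rel_inj {y y' x : Om} (h : Rel y x) (h' : Rel y' x) : y = y' := by
  obtain ⟨w, h1, h2⟩ := h
  obtain ⟨w', h3, h4⟩ := h'
  have h5 : w' = w := mul_left_cancel₀ (by norm_num : (5 : Om) ≠ 0) (h4.symm.trans h2)
  subst h5
  have h6 : w' ≠ 0 := by
    rintro rfl
    norm_num at h1
  refine mul_left_cancel₀ (mul_ne_zero (by norm_num : (5 : Om) ≠ 0) (pow_ne_zero 3 h6)) ?_
  linear_combination h3 - h1

omit [IsAlgClosure ℚ Om] in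
lemma not_rel_zero (y : Om) : ¬ Rel y 0 := by
  rintro ⟨w, h1, h2⟩
  have h5 : w = 0 := mul_left_cancel₀ (by norm_num : (5 : Om) ≠ 0) (by linear_combination -h2)
  subst h5
  norm_num at h1

lemma inf_good : {x : Om | Good x ∧ ht x ≤ Real.log 5 / 5}.Infinite := by
  have h0 : Good (0 : Om) := ⟨isIntegral_zero, fun φ => by simp, fun ψ => by simp⟩
  choose f hf using fun y : {y : Om // Good y} => step y.1 y.2
  let g : {y : Om // Good y} → {y : Om // Good y} := fun y => ⟨f y, (hf y).1⟩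
  let u : ℕ → {y : Om // Good y} := fun n => g^[n] ⟨0, h0⟩
  have hu : ∀ n, Rel (u n).1 (u (n + 1)).1 := fun n => by
    simp only [u, Function.iterate_succ_apply']
    exact (hf _).2.1
  have hinj : ∀ m n, (u m).1 = (u n).1 → m = n := by
    intro m
    induction m with
    | zero =>
      intro n h
      rcases n with _ | n
      · rfl
      · exact (not_rel_zero _ (h ▸ hu n : Rel (u n).1 (u 0).1)).elim
    | succ m ih =>
      intro n h
      rcases n with _ | n
      · exact (not_rel_zero _ (h ▸ hu m : Rel (u m).1 (u 0).1)).elim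
      · rw [ih n (rel_inj (hu m) (h ▸ hu n))]
  refine Set.infinite_of_injective_forall_mem (f := fun n => (u (n + 1)).1)
    (fun m n h => Nat.succ_injective (hinj _ _ h)) fun n => ⟨(u (n + 1)).2, ?_⟩
  simp only [u, Function.iterate_succ_apply']
  exact (hf _).2.2

lemma tot_padic (x : Om) (hx : Good x) :
    ((minpoly ℚ x).map (algebraMap ℚ ℚ_[5])).roots.card = (minpoly ℚ x).natDegree := by
  have hq : IsIntegral ℚ x := Algebra.IsIntegral.isIntegral x
  rw [← natDegree_map (algebraMap ℚ ℚ_[5]), ← splits_iff_card_roots]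
  refine Splits.of_splits_map (algebraMap ℚ_[5] (AlgebraicClosure ℚ_[5])) (IsAlgClosed.splits _)
    fun a ha => ?_
  rw [Polynomial.map_map, RingHom.ext_rat ((algebraMap ℚ_[5] (AlgebraicClosure ℚ_[5])).comp _)
    (algebraMap ℚ (AlgebraicClosure ℚ_[5]))] at ha
  obtain ⟨φ, hφ⟩ := IntermediateField.exists_algHom_of_splits_of_aeval (F := ℚ) (E := Om)
    (K := AlgebraicClosure ℚ_[5]) (x := x) (y := a)
    (fun z => ⟨Algebra.IsIntegral.isIntegral z, IsAlgClosed.splits _⟩) (mem_aroots.1 ha).2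
  obtain ⟨z, hz⟩ := hx.2.2 φ.toRingHom
  exact ⟨z, hz.trans hφ⟩

lemma main : {x : Om | IsIntegral ℤ x ∧
    ((minpoly ℚ x).map (algebraMap ℚ ℚ_[5])).roots.card = (minpoly ℚ x).natDegree ∧
    ht x ≤ Real.log 5 / 5}.Infinite :=
  inf_good.mono fun x hx => ⟨hx.1.1, tot_padic x hx.1, hx.2⟩

lemma main' : {x : AlgebraicClosure ℚ | IsIntegral ℤ x ∧
    ((minpoly ℚ x).map (algebraMap ℚ ℚ_[5])).roots.card = (minpoly ℚ x).natDegree ∧
    ht x ≤ Real.log 5 / 5}.Infinite := by
  have : IsAlgClosure ℚ (AlgebraicClosure ℚ) := by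
    convert AlgebraicClosure.instIsAlgClosure ℚ; all_goals rfl
  exact main

end Pool.Agent.H.MP_f15a68_nt
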